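import Mathlib
import Pool.Agent.H805R2.Final
import Pool.Agent.H805R2.Sanity

/-!
# Sharp volume decay of sublevel sets in the Cegrell class `𝓕(Ω)`

For each `n` there is a constant `c_n` such that for every bounded hyperconvex domain `Ω ⊂ ℂⁿ`,
every `φ ∈ 𝓕(Ω)` with total Monge-Ampere mass `λⁿ`, `λ > 0`, and every `s > 0`,
`Vol {φ < -s} ≤ c_n δ_Ω^{2n} exp (-2 n s / λ)`.

All notions entering the statement are defined in this file, over Mathlib alone.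
-/

set_option autoImplicit false

open MeasureTheory Metric Set Filter Topology
open scoped ContDiff ComplexOrder

namespace Pool.Agent.Results.MP_92512e_an.SharpVolumeDecay

/-- `ℂⁿ` with its Euclidean norm; `volume` on it is Lebesgue measure on `ℝ²ⁿ`. -/
abbrev Cn (n : ℕ) : Type := EuclideanSpace ℂ (Fin n)

/-- The `j`-th unit vector of `ℂⁿ`. -/
noncomputable def bas {n : ℕ} (j : Fin n) : Cn n := EuclideanSpace.single j (1 : ℂ)

/-- The Wirtinger derivative `∂f/∂z_j = (∂f/∂x_j - i ∂f/∂y_j) / 2`. -/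
noncomputable def wd {n : ℕ} (j : Fin n) (f : Cn n → ℂ) (z : Cn n) : ℂ :=
  (fderiv ℝ f z (bas j) - Complex.I * fderiv ℝ f z (Complex.I • bas j)) / 2

/-- The Wirtinger derivative `∂f/∂z̄_k = (∂f/∂x_k + i ∂f/∂y_k) / 2`. -/
noncomputable def wdb {n : ℕ} (k : Fin n) (f : Cn n → ℂ) (z : Cn n) : ℂ :=
  (fderiv ℝ f z (bas k) + Complex.I * fderiv ℝ f z (Complex.I • bas k)) / 2

/-- The complex Hessian `(∂²u/∂z_j∂z̄_k)` of a real function. -/
noncomputable def hess {n : ℕ} (u : Cn n → ℝ) (z : Cn n) : Matrix (Fin n) (Fin n) ℂ :=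
  Matrix.of fun j k => wd j (wdb k fun w => (u w : ℂ)) z

/-- Plurisubharmonic functions on an open set `Ω` of `ℂⁿ`, with values in `[-∞, ∞)`: upper
semicontinuous, and for every closed complex disc `{a + ζ b : |ζ| ≤ 1} ⊆ Ω` the value at the centre
`a` is at most the mean over the boundary circle. The mean of an upper semicontinuous function is
the infimum of the means of its continuous majorants, which is how it is expressed here. -/
def PSH {n : ℕ} (Ω : Set (Cn n)) (u : Cn n → EReal) : Prop :=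
  UpperSemicontinuousOn u Ω ∧ (∀ z ∈ Ω, u z < ⊤) ∧
  ∀ a b : Cn n, (∀ ζ : ℂ, ‖ζ‖ ≤ 1 → a + ζ • b ∈ Ω) →
    ∀ φ : ℂ → ℝ, Continuous φ →
      (∀ ζ : ℂ, ‖ζ‖ = 1 → u (a + ζ • b) ≤ ((φ ζ : ℝ) : EReal)) →
        u a ≤ ((Real.circleAverage φ 0 1 : ℝ) : EReal)

/-- `Ω` is hyperconvex: there is a negative plurisubharmonic function `ρ` on `Ω` such that every
sublevel set `{ρ < c}`, `c < 0`, is relatively compact in `Ω`. -/
def Hyperconvex {n : ℕ} (Ω : Set (Cn n)) : Prop :=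
  ∃ ρ : Cn n → EReal, PSH Ω ρ ∧ (∀ z ∈ Ω, ρ z < 0) ∧
    ∀ c : ℝ, c < 0 → ∃ K : Set (Cn n), IsCompact K ∧ K ⊆ Ω ∧ ∀ z ∈ Ω, ρ z < (c : EReal) → z ∈ K

/-- The density of `(dd^c v)ⁿ` with respect to Lebesgue measure for a `C²` function `v`, where
`dd^c = (i/π)∂∂̄`: it is `n! (2/π)ⁿ det(∂²v/∂z_j∂z̄_k)`. -/
noncomputable def maDensity {n : ℕ} (v : Cn n → ℝ) (z : Cn n) : ℝ :=
  (n.factorial : ℝ) * (2 / Real.pi) ^ n * (hess v z).det.re

/-- `μ` is, on `Ω`, the Monge-Ampere measure `(dd^c u)ⁿ` of the locally bounded plurisubharmonic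
function `u` in the sense of Bedford and Taylor: it is finite on compact subsets of `Ω`, and on every
open `U` relatively compact in `Ω` the function `u` is the pointwise limit of a decreasing sequence of
smooth plurisubharmonic functions `v_k` whose Monge-Ampere measures `maDensity (v_k) dVol` converge
weakly to `μ` on `U`. -/
def IsMongeAmpere {n : ℕ} (Ω : Set (Cn n)) (u : Cn n → ℝ) (μ : Measure (Cn n)) : Prop :=
  (∀ K : Set (Cn n), IsCompact K → K ⊆ Ω → μ K < ⊤) ∧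
  ∀ U : Set (Cn n), IsOpen U → IsCompact (closure U) → closure U ⊆ Ω →
    ∃ v : ℕ → Cn n → ℝ,
      (∀ k, ContDiffOn ℝ ∞ (v k) U) ∧
      (∀ k, ∀ z ∈ U, (hess (v k) z).PosSemidef) ∧
      (∀ z ∈ U, Antitone fun k => v k z) ∧
      (∀ z ∈ U, Tendsto (fun k => v k z) atTop (𝓝 (u z))) ∧
      ∀ χ : Cn n → ℝ, Continuous χ → HasCompactSupport χ → tsupport χ ⊆ U →
        Tendsto (fun k => ∫ z, χ z * maDensity (v k) z) atTop (𝓝 (∫ z, χ z ∂μ))

/-- `u ∈ 𝓔₀(Ω)` with `(dd^c u)ⁿ = ν`: `u` is a bounded plurisubharmonic function, `u ≤ 0`,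
`u(z) → 0` as `z → ∂Ω`, and the total mass of `(dd^c u)ⁿ` is finite. -/
def IsE0 {n : ℕ} (Ω : Set (Cn n)) (u : Cn n → ℝ) (ν : Measure (Cn n)) : Prop :=
  PSH Ω (fun z => ((u z : ℝ) : EReal)) ∧
  (∃ M : ℝ, ∀ z ∈ Ω, -M ≤ u z) ∧ (∀ z ∈ Ω, u z ≤ 0) ∧
  (∀ w ∈ frontier Ω, Tendsto u (𝓝[Ω] w) (𝓝 0)) ∧
  IsMongeAmpere Ω u ν ∧ ν Ω < ⊤

/-- `φ` belongs to the Cegrell class `𝓕(Ω)` with `(dd^c φ)ⁿ = μ`: `φ` is plurisubharmonic, and there
is a sequence `u_j ∈ 𝓔₀(Ω)` decreasing pointwise to `φ`, with total masses bounded, such that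
`(dd^c u_j)ⁿ` converges weakly to `μ` on `Ω`. -/
def IsCegrellF {n : ℕ} (Ω : Set (Cn n)) (φ : Cn n → EReal) (μ : Measure (Cn n)) : Prop :=
  PSH Ω φ ∧ μ Ω < ⊤ ∧
  ∃ (u : ℕ → Cn n → ℝ) (ν : ℕ → Measure (Cn n)),
    (∀ j, IsE0 Ω (u j) (ν j)) ∧
    (∀ z ∈ Ω, Antitone fun j => u j z) ∧
    (∀ z ∈ Ω, Tendsto (fun j => ((u j z : ℝ) : EReal)) atTop (𝓝 (φ z))) ∧
    (∃ M : ℝ, ∀ j, ν j Ω ≤ ENNReal.ofReal M) ∧
    ∀ χ : Cn n → ℝ, Continuous χ → HasCompactSupport χ → tsupport χ ⊆ Ω →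
      Tendsto (fun j => ∫ z, χ z ∂(ν j)) atTop (𝓝 (∫ z, χ z ∂μ))

/-- Sanity check of the definitions: on the unit ball `B` of `ℂⁿ`, the function `|z|² - 1` lies in
`𝓕(B)` with Monge-Ampere measure `n! (2/π)ⁿ dVol`, whose total mass is `2ⁿ` (so `λ = 2`). -/
theorem definitions_check {n : ℕ} (hn : 1 ≤ n) :
    IsOpen (ball (0 : Cn n) 1) ∧ IsConnected (ball (0 : Cn n) 1) ∧
    Bornology.IsBounded (ball (0 : Cn n) 1) ∧ Hyperconvex (ball (0 : Cn n) 1) ∧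
    IsCegrellF (ball (0 : Cn n) 1) (fun z => ((‖z‖ ^ 2 - 1 : ℝ) : EReal))
      (ENNReal.ofReal ((n.factorial : ℝ) * (2 / Real.pi) ^ n) • volume) ∧
    (ENNReal.ofReal ((n.factorial : ℝ) * (2 / Real.pi) ^ n) • (volume : Measure (Cn n))) (ball 0 1) =
      ENNReal.ofReal (2 ^ n) :=
  Pool.Agent.H805R2.example_F hn

/-- **Q1, answered in the affirmative.** For each `n ≥ 1` there is a constant `c`, depending only on
`n`, such that for every bounded hyperconvex domain `Ω` in `ℂⁿ`, every `φ ∈ 𝓕(Ω)` whose Monge-Ampere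
measure `μ` has total mass `λⁿ` with `λ > 0`, and every `s > 0`, the Lebesgue measure of `{φ < -s}` is
at most `c · diam(Ω)^{2n} · exp(-2ns/λ)`. -/
theorem result (n : ℕ) (hn : 1 ≤ n) : ∃ c : ℝ, 0 < c ∧
    ∀ Ω : Set (Cn n), IsOpen Ω → IsConnected Ω → Bornology.IsBounded Ω → Hyperconvex Ω →
    ∀ (φ : Cn n → EReal) (μ : Measure (Cn n)), IsCegrellF Ω φ μ →
    ∀ lam : ℝ, 0 < lam → μ Ω = ENNReal.ofReal (lam ^ n) → ∀ s : ℝ, 0 < s →
    volume {z | z ∈ Ω ∧ φ z < ((-s : ℝ) : EReal)} ≤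
      ENNReal.ofReal (c * Metric.diam Ω ^ (2 * n) * Real.exp (-(2 * n * s / lam))) := by
  obtain ⟨c, hc, H⟩ := Pool.Agent.H805R2.main_theorem n hn
  refine ⟨c, hc, ?_⟩
  intro Ω h1 h2 h3 _ φ μ hF lam hlam hμ s hs
  exact H Ω h1 h2 h3 φ μ hF lam hlam hμ s hs

end Pool.Agent.Results.MP_92512e_an.SharpVolumeDecay
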